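import Pool.Agent.helper75.LC.Spec

set_option autoImplicit false

namespace Pool.Agent.LC

open MX MG

open scoped MatrixGroups

theorem IND_lift {T A : Type} [Group T] [Group A] [Finite T] (p : ℕ) [hp : Fact p.Prime] (q : T →* A) (t : T)
    (k : ℕ) (h : (q t) ^ (p ^ k) = 1) : ∃ s : T, q s = q t ∧ ∃ l : ℕ, s ^ (p ^ l) = 1 := by
  have hn : orderOf t ≠ 0 := (orderOf_pos t).ne'
  obtain ⟨e, m, hm, hem⟩ := Nat.exists_eq_pow_mul_and_not_dvd hn p hp.out.ne_one
  have hco : Nat.Coprime m (p ^ k) :=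
    Nat.Coprime.pow_right k ((Nat.Prime.coprime_iff_not_dvd hp.out).2 hm).symm
  obtain ⟨c, hc0, hc1⟩ := Nat.chineseRemainder hco 0 1
  refine ⟨t ^ c, ?_, e, ?_⟩
  · rw [map_pow]
    have h1 : c ≡ 1 [MOD orderOf (q t)] := hc1.of_dvd (orderOf_dvd_of_pow_eq_one h)
    have h2 := (pow_eq_pow_iff_modEq (x := q t) (n := c) (m := 1)).2 h1
    rw [h2, pow_one]
  · rw [← pow_mul]
    apply orderOf_dvd_iff_pow_eq_one.1
    rw [hem, mul_comm]
    exact Nat.mul_dvd_mul ((Nat.modEq_zero_iff_dvd).1 hc0) dvd_rfl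

theorem IND : IND_stmt := by
  intro T H W V A _ _ _ _ _ _ _ _ _ _ i j pr hI q hq hact p hp n hB
  have : Finite T := Finite.of_injective i hI.inj
  obtain ⟨f, hf1, hf2, hf3⟩ := hB
  have hch : ∀ s : Fin n, ∃ t : T, q t = (f s).2 ∧ ∃ l : ℕ, t ^ (p ^ l) = 1 := by
    intro s
    obtain ⟨t0, ht0⟩ := hq (f s).2
    obtain ⟨k, hk⟩ := hf2 s
    obtain ⟨t, ht, hl⟩ := IND_lift p q t0 k (by rw [ht0]; exact hk)
    exact ⟨t, ht.trans ht0, hl⟩
  choose t ht hl using hch
  have hpr : ∀ (c : T) (v : V), pr (i c • v) = q c • pr v := by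
    intro c v
    rw [hI.pre, hact]
  refine ⟨fun s => (j (f s).1, i (t s)), ?_, ?_, ?_⟩
  · intro s hs
    obtain ⟨u, hu⟩ := hs
    apply hf1 s
    refine ⟨pr u, ?_⟩
    have h1 := congrArg pr hu
    simp only [map_sub, hpr, hI.prj, ht] at h1
    exact h1
  · intro s
    obtain ⟨l, hl'⟩ := hl s
    exact ⟨l, by
      change (i (t s)) ^ (p ^ l) = 1
      rw [← map_pow, hl', map_one]⟩
  · intro s s' hrel
    obtain ⟨g, m, hm, hg, u, hu⟩ := hrel
    change i (t s') = g * (i (t s)) ^ m * g⁻¹ at hg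
    change j (f s').1 - m • (g • j (f s).1) = i (t s') • u - u at hu
    have h1 := congrArg pr hu
    rw [map_sub, map_sub, map_nsmul, hI.prj, hpr, ht] at h1
    by_cases hgr : g ∈ i.range
    · obtain ⟨c, rfl⟩ := hgr
      rw [hpr, hI.prj] at h1
      have h2 : t s' = c * t s ^ m * c⁻¹ := by
        apply hI.inj
        rw [map_mul, map_mul, map_inv, map_pow]
        exact hg
      apply hf3 s s'
      refine ⟨q c, m, hm, ?_, pr u, h1⟩
      rw [← ht s', h2, map_mul, map_mul, map_inv, map_pow, ht]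
    · exfalso
      rw [hI.prz g hgr, smul_zero, sub_zero] at h1
      exact hf1 s' ⟨pr u, h1⟩

end Pool.Agent.LC
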